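import Pool.Agent.W622.ETG.Stm

set_option autoImplicit false

namespace Pool.Agent.W806.ELG

open Pool.Agent.W622.ETG Module

theorem t_ADD (_hLU : S_LU) (hDEC : S_DEC) (hNF : S_NF) (hSPLIT : S_SPLIT) (hSTAR : S_STAR) :
    S_ADD := by
  intro V _ _ _ e A X b ζ η π π' hMC hX hb hζ hη hζb hηb hπ hπ'
  obtain ⟨_, s, hs⟩ := hNF V e (res A (ann b)) (hMC.el _ (ann_ne_top hb))
  have hAb : EFam e (res A (ann b)) := hMC.ef.res _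
  obtain ⟨hst1, hst2⟩ := hSTAR V e A X b s hMC hX hb hs
  obtain ⟨h1, -, -⟩ := hSPLIT V e (res A (ann b)) s {Z | Z ∈ s ∧ Z ≤ X} hAb hs (fun Z hZ => hZ.1)
  have hle : sSup {Z | Z ∈ s ∧ Z ≤ X} ≤ X := sSup_le fun Z hZ => hZ.2
  have hdis : Disjoint (sSup (s \ {Z | Z ∈ s ∧ Z ≤ X})) X := by
    apply hst2.mono_left
    apply sSup_le_sSup
    rintro Z ⟨hZ, hZ'⟩
    refine ⟨hZ, (hst1 Z hZ).resolve_left fun h => hZ' ⟨hZ, h⟩⟩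
  have key : ∀ ζ ∈ A, ζ b = 0 → ∀ π, IsPr A X ζ π →
      sp (ζ + π) ≤ sSup (s \ {Z | Z ∈ s ∧ Z ≤ X}) := by
    intro ζ hζ hζb π hπ
    have h2 : ζ ∈ res A (ann b) := (mem_res_ann hMC.ef).2 ⟨hζ, hζb⟩
    rw [h1] at h2
    obtain ⟨ζ1, hζ1, ζ2, hζ2, h3⟩ := Submodule.mem_sup.1 h2
    have h4 : ζ + ζ1 = ζ2 := by
      rw [← h3]
      have : ζ1 + ζ2 + ζ1 = ζ2 + (ζ1 + ζ1) := by abel
      have hv : ζ1 + ζ1 = 0 := vadd ζ1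
      rw [this, hv, add_zero]
    have h5 : sp ζ2 ≤ sSup (s \ {Z | Z ∈ s ∧ Z ≤ X}) := (mem_res'.1 hζ2).2
    have h6 : IsPr A X ζ ζ1 := by
      refine ⟨⟨hζ1.1.1, fun a => hle (hζ1.2 a)⟩, ?_⟩
      rw [h4]
      exact hdis.mono_left h5
    have h7 : π = ζ1 := (hDEC V e A X hMC.ef).2.1 ζ hζ π ζ1 hπ h6
    rw [h7, h4]
    exact h5
  refine ⟨(res A X).add_mem hπ.1 hπ'.1, ?_⟩
  apply hdis.mono_left
  have e : ζ + η + (π + π') = (ζ + π) + (η + π') := by abel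
  rw [e]
  exact (sp_add_le _ _).trans (sup_le (key ζ hζ hζb π hπ) (key η hη hηb π' hπ'))

end Pool.Agent.W806.ELG
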